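import Pool.Agent.H3.Lens2

namespace Pool.Agent.Results.MP_6c73b3_gt.LensSpace

open Pool.Agent.H3.Lens

/-- For every `c > 0` some round lens space `L(p, 1)` has no geodesically convex subset of
relative volume at least `c`. -/
theorem result : ∀ c : ℝ, 0 < c → ∃ p : ℕ, 4 ≤ p ∧ ∀ Γ : Set (Lens p), IsGeodConvex Γ →
    vol Γ < c * vol (Set.univ : Set (Lens p)) :=
  main

end Pool.Agent.Results.MP_6c73b3_gt.LensSpace
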